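import Pool.Agent.helper83.SC.Stmt

/-!
# Module CH1: charts, coordinates
-/

open scoped Pointwise ContDiff
open MeasureTheory Set Filter Topology

namespace Pool.Agent.helper83.SC

theorem CH1_inner {m : ℕ} (b : OrthonormalBasis (Fin (m + 1)) ℝ (E (m + 1))) (x v : E (m + 1)) :
    inner ℝ x v = inner ℝ (coord b x).1 (coord b v).1 + (coord b x).2 * (coord b v).2 := by
  have h := b.sum_inner_mul_inner x v
  have h1 : inner ℝ (coord b x).1 (coord b v).1
      = ∑ i : Fin m, inner ℝ (b i.castSucc) v * inner ℝ (b i.castSucc) x := by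
    rw [PiLp.inner_apply]
    rfl
  rw [← h, Fin.sum_univ_castSucc, h1]
  congr 1
  · refine Finset.sum_congr rfl fun i _ => ?_
    rw [real_inner_comm x (b i.castSucc), mul_comm]
  · have h2 : inner ℝ x (b (Fin.last m)) = (coord b x).2 := real_inner_comm _ _
    rw [h2]
    rfl

theorem CH1_coord_comb {m : ℕ} (b : OrthonormalBasis (Fin (m + 1)) ℝ (E (m + 1)))
    (p : E m × ℝ) :
    coord b ((∑ i : Fin m, p.1 i • b i.castSucc) + p.2 • b (Fin.last m)) = p := by
  have h (i j : Fin (m + 1)) : inner ℝ (b i) (b j) = if i = j then (1 : ℝ) else 0 :=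
    b.inner_eq_ite i j
  unfold coord
  simp only [inner_add_right, inner_smul_right, inner_sum, h]
  obtain ⟨p1, p2⟩ := p
  refine Prod.ext ?_ ?_
  · ext j
    simp [Fin.castSucc_inj, (Fin.castSucc_lt_last j).ne]
  · simp [fun j : Fin m => (Fin.castSucc_lt_last j).ne']

/-- the chart coordinates as a linear equivalence -/
noncomputable def CH1_e {m : ℕ} (b : OrthonormalBasis (Fin (m + 1)) ℝ (E (m + 1))) :
    E (m + 1) ≃L[ℝ] E m × ℝ :=
  LinearEquiv.toContinuousLinearEquiv
    { toFun := coord b
      map_add' := by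
        intro x y
        refine Prod.ext ?_ ?_
        · ext i
          simp [coord, inner_add_right]
        · simp [coord, inner_add_right]
      map_smul' := by
        intro t x
        refine Prod.ext ?_ ?_
        · ext i
          simp [coord, inner_smul_right]
        · simp [coord, inner_smul_right]
      invFun := fun p => (∑ i : Fin m, p.1 i • b i.castSucc) + p.2 • b (Fin.last m)
      left_inv := by
        intro x
        have h := b.sum_repr' x
        rw [Fin.sum_univ_castSucc] at h
        exact h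
      right_inv := fun p => CH1_coord_comb b p }

theorem CH1_e_coe {m : ℕ} (b : OrthonormalBasis (Fin (m + 1)) ℝ (E (m + 1))) :
    ⇑(CH1_e b) = coord b := rfl

theorem CH1_mp {m : ℕ} (b : OrthonormalBasis (Fin (m + 1)) ℝ (E (m + 1))) :
    MeasurePreserving (coord b) (volume : Measure (E (m + 1))) (volume : Measure (E m × ℝ)) := by
  have h1 : MeasurePreserving b.repr := b.measurePreserving_repr
  have h2 : MeasurePreserving (@WithLp.ofLp 2 (Fin (m + 1) → ℝ)) :=
    PiLp.volume_preserving_ofLp (Fin (m + 1))
  have h3 := volume_preserving_piFinSuccAbove (fun _ : Fin (m + 1) => ℝ) (Fin.last m)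
  have h4 : MeasurePreserving (Prod.map (id : ℝ → ℝ) (@WithLp.toLp 2 (Fin m → ℝ))) :=
    (MeasurePreserving.id volume).prod (PiLp.volume_preserving_toLp (Fin m))
  have h5 : MeasurePreserving (Prod.swap : ℝ × E m → E m × ℝ) :=
    Measure.measurePreserving_swap
  have h6 := h5.comp (h4.comp (h3.comp (h2.comp h1)))
  have hfun : coord b = Prod.swap ∘ Prod.map id (@WithLp.toLp 2 (Fin m → ℝ)) ∘
      (MeasurableEquiv.piFinSuccAbove (fun _ : Fin (m + 1) => ℝ) (Fin.last m)) ∘ WithLp.ofLp ∘
        b.repr := by
    funext x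
    have hr (i : Fin (m + 1)) : b.repr x i = inner ℝ (b i) x := b.repr_apply_apply x i
    unfold coord
    refine Prod.ext ?_ ?_
    · ext i
      have h8 := (hr i.castSucc).symm
      simpa [MeasurableEquiv.piFinSuccAbove, Fin.init] using h8
    · exact (hr (Fin.last m)).symm
  rw [hfun]
  exact h6

theorem CH1_isBody_image {V W : Type*} [NormedAddCommGroup V] [NormedSpace ℝ V]
    [NormedAddCommGroup W] [NormedSpace ℝ W] (e : V ≃L[ℝ] W) {K : Set V}
    (hK : IsCompact K ∧ Convex ℝ K ∧ K.Nonempty) :
    IsCompact (e '' K) ∧ Convex ℝ (e '' K) ∧ (e '' K).Nonempty :=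
  ⟨hK.1.image e.continuous, hK.2.1.linear_image e.toLinearEquiv.toLinearMap, hK.2.2.image _⟩

theorem coord_facts_of : coord_facts_stmt := by
  intro m b
  have himg : ∀ K : Set (E (m + 1)), IsBody K → Body (coord b '' K) := fun K hK =>
    CH1_isBody_image (CH1_e b) hK
  have hHE : ∀ K : Set (E (m + 1)), ∀ v,
      hE K v = H (coord b '' K) (coord b v).1 (coord b v).2 := by
    intro K v
    unfold hE H
    rw [image_image]
    congr 1
    apply image_congr
    intro x _
    exact CH1_inner b x v
  refine ⟨himg, ?_, ?_, ?_, ?_, fun K _ => hHE K, ?_⟩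
  · intro A hA
    have h1 := CH1_isBody_image (CH1_e b).symm (K := A) hA
    have h2 : (CH1_e b).symm '' A = coord b ⁻¹' A := by
      rw [← CH1_e_coe b]
      exact (CH1_e b).toEquiv.symm.image_eq_preimage_symm A
    rw [h2] at h1
    exact h1
  · intro A
    exact image_preimage_eq A (CH1_e b).surjective
  · intro K L
    exact image_add (CH1_e b)
  · intro K hK
    unfold vol
    have hc := (himg K hK).1
    have h1 := (CH1_mp b).measure_preimage hc.measurableSet.nullMeasurableSet
    rw [← CH1_e_coe b, (CH1_e b).injective.preimage_image] at h1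
    rw [h1, CH1_e_coe b]
  · intro K _
    funext y
    unfold F chart
    rw [hHE K]
    have h1 := CH1_coord_comb b (y, 1)
    simp only [one_smul] at h1
    unfold emb
    rw [h1]

end Pool.Agent.helper83.SC
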